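import Pool.Agent.H379R3.RgK

/-!
# Regularity along finitely generated FI-modules in characteristic `p`

For every field `K` of characteristic `p > 0` and every `c ≥ 1` there is a finitely generated
graded FI-module `M` over `P = (X^{FI,1})^{⊗ c}` with `reg M_n = 1` if `p ∣ n + 1` and
`reg M_n = 0` otherwise (`n ≥ 1`).

The module has generators `ν_i` (degree 0) and `e_j` (degree 1), `i, j ∈ [n]`, and relations
`x_{1,k} e_j = 0` for `k ≠ j`, `x_{1,j} ν_i = (1 + δ_{ij}) e_j`, all other variables acting by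
zero.  The matrix `(1 + δ_{ij})` has determinant `n + 1`.
-/

open MvPolynomial H379R3 H379R3.OIReg

universe u

namespace Pool.Agent.Results.MP_9ec07c_ag.FIPositiveChar

theorem result (K : Type u) [Field K] (p : ℕ) (hp : p.Prime) [CharP K p] (c : ℕ) (hc : 1 ≤ c) :
    ∃ M : GradedFIModule K c, M.FinGen ∧
      (∀ n : ℕ, 1 ≤ n → ∀ r : ℤ, M.HasReg n r ↔ r = if p ∣ n + 1 then 1 else 0) ∧
      ¬ EventuallyLinear M.HasReg := by
  let i0 : Fin c := ⟨0, hc⟩
  refine ⟨GMod.fiMod i0 (GMod.symm K) GMod.symm_compat, GMod.fiMod_finGen _ _ _, ?_⟩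
  have hcast : ∀ n : ℕ, ((n : K) + 1 = 0 ↔ p ∣ n + 1) := by
    intro n
    rw [← CharP.cast_eq_zero_iff K p (n + 1)]
    push_cast; rfl
  have h1 : ∀ n : ℕ, 1 ≤ n → ∀ r : ℤ,
      (GMod.fiMod i0 (GMod.symm K) GMod.symm_compat).HasReg n r ↔
        r = if p ∣ n + 1 then 1 else 0 := by
    intro n hn r
    split_ifs with h
    · exact GMod.reg_sing i0 (GMod.symm K n) hn
        (GMod.symm_not_surj ((hcast n).mpr h) hn) r
    · exact GMod.reg_bij i0 (GMod.symm K n) hn
        (GMod.symm_bij (fun h2 => h ((hcast n).mp h2))) r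
  refine ⟨h1, not_linear _ _ h1 ?_ ?_ ?_⟩
  · intro n; split_ifs <;> simp
  · intro N
    refine ⟨p * (N + 1), ?_, ?_⟩
    · have := Nat.le_mul_of_pos_left (N + 1) hp.pos
      omega
    · rw [if_neg]
      intro h
      have h2 : p ∣ 1 := (Nat.dvd_add_right (Dvd.intro _ rfl)).mp h
      exact hp.one_lt.ne' (Nat.dvd_one.mp h2)
  · intro N
    have h2 := Nat.le_mul_of_pos_left (N + 1) hp.pos
    refine ⟨p * (N + 1) - 1, by omega, ?_⟩
    rw [if_pos]
    have h3 : p * (N + 1) - 1 + 1 = p * (N + 1) := by omega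
    rw [h3]
    exact Dvd.intro _ rfl

end Pool.Agent.Results.MP_9ec07c_ag.FIPositiveChar
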