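import Pool.Agent.H379R3.RgK

/-!
# Regularity along finitely generated OI-modules is not eventually linear

For every field `K` and every `c ≥ 1` there is a finitely generated graded OI-module `M` over
`P = (X^{OI,1})^{⊗ c}` with `reg M_n = 0` for even `n` and `reg M_n = 1` for odd `n` (`n ≥ 1`).

The module has generators `ν_i` (degree 0) and `e_j` (degree 1), `i, j ∈ [n]`, and relations
`x_{1,k} e_j = 0` for `k ≠ j`, `x_{1,j} ν_i = sgn(j - i) e_j`, all other variables acting by zero.
The matrix `(sgn(j - i))` is invertible exactly for even `n`.  For even `n` the module is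
`⨁_j K[x_{1,j}]`, which has a linear resolution; for odd `n` there is a class in
`Ext^1(K, M_n)` of degree `1`, so the resolution is not linear.
-/

open MvPolynomial H379R3 H379R3.OIReg

universe u

namespace Pool.Agent.Results.MP_9ec07c_ag.RegNotEventuallyLinear

theorem result (K : Type u) [Field K] (c : ℕ) (hc : 1 ≤ c) :
    ∃ M : GradedOIModule K c, M.FinGen ∧
      (∀ n : ℕ, 1 ≤ n → ∀ r : ℤ, M.HasReg n r ↔ r = if Even n then 0 else 1) ∧
      ¬ EventuallyLinear M.HasReg := by
  let i0 : Fin c := ⟨0, hc⟩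
  refine ⟨GMod.oiMod i0 (GMod.skew K) GMod.skew_compat, GMod.oiMod_finGen _ _ _, ?_⟩
  have h1 : ∀ n : ℕ, 1 ≤ n → ∀ r : ℤ,
      (GMod.oiMod i0 (GMod.skew K) GMod.skew_compat).HasReg n r ↔
        r = if Even n then 0 else 1 := by
    intro n hn r
    split_ifs with h
    · exact GMod.reg_bij i0 (GMod.skew K n) hn (GMod.skew_even h) r
    · exact GMod.reg_sing i0 (GMod.skew K n) hn (GMod.skew_odd h) r
  refine ⟨h1, not_linear _ _ h1 ?_ ?_ ?_⟩
  · intro n; split_ifs <;> simp
  · intro N; exact ⟨2 * N, by omega, by simp⟩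
  · intro N; exact ⟨2 * N + 1, by omega, by simp⟩

end Pool.Agent.Results.MP_9ec07c_ag.RegNotEventuallyLinear
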